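import Mathlib

/-!
Definitions for MP_f60174_an: bounded domains with smooth connected boundary, formally selfadjoint
second order elliptic operators `L w = -∑ ∂_i (a_ij ∂_j w) + c w`, strict positivity with
Dirichlet boundary condition.
-/

namespace Pool.Agent.H403R2.CES

open Set Topology MeasureTheory

open scoped ContDiff

/-- The Euclidean space `ℝⁿ`. -/
abbrev E (n : ℕ) : Type := EuclideanSpace ℝ (Fin n)

/-- The `i`-th partial derivative `∂_i f (p)`. -/
noncomputable def pd {n : ℕ} (i : Fin n) (f : E n → ℝ) (p : E n) : ℝ :=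
  fderiv ℝ f p (EuclideanSpace.single i 1)

/-- The second order operator `L w = -∑_{i,j} ∂_i (a_ij ∂_j w) + c w`. -/
noncomputable def ellOp {n : ℕ} (a : Fin n → Fin n → E n → ℝ) (c : E n → ℝ) (w : E n → ℝ)
    (p : E n) : ℝ :=
  -(∑ i, pd i (fun q => ∑ j, a i j q * pd j w q) p) + c p * w p

/-- `f` is of class `C^k` on the closure of `D`, that is, on an open set containing it. -/
def SmoothOnClosure {n : ℕ} (k : WithTop ℕ∞) (D : Set (E n)) (f : E n → ℝ) : Prop :=
  ∃ U : Set (E n), IsOpen U ∧ closure D ⊆ U ∧ ContDiffOn ℝ k f U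

/-- `D` is a bounded domain whose boundary `∂D` is smooth and connected: near every boundary
point, `D` is the set `{G < 0}` for a smooth function `G` with nonvanishing differential. -/
structure IsSmoothBoundedDomain {n : ℕ} (D : Set (E n)) : Prop where
  isOpen : IsOpen D
  isConnected : IsConnected D
  isBounded : Bornology.IsBounded D
  frontier_connected : IsConnected (frontier D)
  frontier_smooth : ∀ p ∈ frontier D, ∃ U : Set (E n), IsOpen U ∧ p ∈ U ∧ ∃ G : E n → ℝ,
    ContDiffOn ℝ ∞ G U ∧ fderiv ℝ G p ≠ 0 ∧ ∀ q ∈ U, (q ∈ D ↔ G q < 0)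

/-- `L w = -∑ ∂_i (a_ij ∂_j w) + c w` is a formally selfadjoint uniformly elliptic operator on `D`
with coefficients smooth up to the boundary, which is strictly positive as a Dirichlet operator:
`(L w, w) ≥ γ ‖w‖²` for some `γ > 0` and all `w` of class `C²` up to the boundary which vanish
on `∂D`. -/
structure IsPositiveDirichletOperator {n : ℕ} (D : Set (E n)) (a : Fin n → Fin n → E n → ℝ)
    (c : E n → ℝ) : Prop where
  smooth_a : ∀ i j, SmoothOnClosure ∞ D (a i j)
  smooth_c : SmoothOnClosure ∞ D c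
  symm : ∀ i j p, a i j p = a j i p
  elliptic : ∃ μ : ℝ, 0 < μ ∧ ∀ p ∈ closure D, ∀ ξ : Fin n → ℝ,
    μ * ∑ i, ξ i ^ 2 ≤ ∑ i, ∑ j, a i j p * ξ i * ξ j
  positive : ∃ γ : ℝ, 0 < γ ∧ ∀ w : E n → ℝ, SmoothOnClosure 2 D w →
    (∀ p ∈ frontier D, w p = 0) →
    γ * ∫ p in D, w p ^ 2 ≤ ∫ p in D, ellOp a c w p * w p

end Pool.Agent.H403R2.CES
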