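import Pool.Agent.H403R2.CES.Torus

/-!
The operators and the solutions on the solid torus.
-/

namespace Pool.Agent.H403R2.CES

open Set Topology MeasureTheory Filter

open scoped ContDiff

/-- `σ = x² + y²`. -/
noncomputable def sg (p : E 3) : ℝ := p 0 ^ 2 + p 1 ^ 2

/-- `s = (σ - 2)² + z²`. -/
lemma sFun_eq (p : E 3) : sFun p = (sg p - 2) ^ 2 + p 2 ^ 2 := rfl

/-- The profile `F = (1 - s) (3 - s) / σ³`. -/
noncomputable def prof (p : E 3) : ℝ := (1 - sFun p) * (3 - sFun p) * (sg p)⁻¹ ^ 3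

/-- Binary quintic forms `c5 x⁵ + c4 x⁴ y + ⋯ + c0 y⁵`. -/
noncomputable def quint (c5 c4 c3 c2 c1 c0 : ℝ) (p : E 3) : ℝ :=
  c5 * p 0 ^ 5 + c4 * p 0 ^ 4 * p 1 + c3 * p 0 ^ 3 * p 1 ^ 2 + c2 * p 0 ^ 2 * p 1 ^ 3 +
    c1 * p 0 * p 1 ^ 4 + c0 * p 1 ^ 5

/-- Binary quartic forms `c4 x⁴ + c3 x³ y + ⋯ + c0 y⁴`. -/
noncomputable def quart (c4 c3 c2 c1 c0 : ℝ) (p : E 3) : ℝ :=
  c4 * p 0 ^ 4 + c3 * p 0 ^ 3 * p 1 + c2 * p 0 ^ 2 * p 1 ^ 2 + c1 * p 0 * p 1 ^ 3 + c0 * p 1 ^ 4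

/-- The coefficient matrix
`(1/σ) X Xᵀ + m Θ Θᵀ + 4 σ Z Zᵀ` with `X = (x, y, 0)`, `Θ = (-y, x, 0)`, `Z = (0, 0, 1)`. -/
noncomputable def mat (m : E 3 → ℝ) (i j : Fin 3) (p : E 3) : ℝ :=
  !![p 0 ^ 2 / sg p + m p * p 1 ^ 2, (1 / sg p - m p) * (p 0 * p 1), 0;
    (1 / sg p - m p) * (p 0 * p 1), p 1 ^ 2 / sg p + m p * p 0 ^ 2, 0;
    0, 0, 4 * sg p] i j

section
variable (m : E 3 → ℝ) (p : E 3)
lemma mat00 : mat m 0 0 p = p 0 ^ 2 / sg p + m p * p 1 ^ 2 := rfl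
lemma mat01 : mat m 0 1 p = (1 / sg p - m p) * (p 0 * p 1) := rfl
lemma mat02 : mat m 0 2 p = 0 := rfl
lemma mat10 : mat m 1 0 p = (1 / sg p - m p) * (p 0 * p 1) := rfl
lemma mat11 : mat m 1 1 p = p 1 ^ 2 / sg p + m p * p 0 ^ 2 := rfl
lemma mat12 : mat m 1 2 p = 0 := rfl
lemma mat20 : mat m 2 0 p = 0 := rfl
lemma mat21 : mat m 2 1 p = 0 := rfl
lemma mat22 : mat m 2 2 p = 4 * sg p := rfl
end

/-- The zeroth order coefficient. -/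
noncomputable def zer (p : E 3) : ℝ := 192 - 64 * sg p / (3 - sFun p) + 1 / sg p

lemma sg_grad (p : E 3) : HasGrad sg (2 * p 0) (2 * p 1) 0 p := by
  have h := ((HasGrad.x0 (p := p)).pow 2).add ((HasGrad.x1 (p := p)).pow 2)
  exact h.congr' (by norm_num) (by norm_num) (by norm_num)

lemma s_grad (p : E 3) : HasGrad sFun (4 * p 0 * (sg p - 2)) (4 * p 1 * (sg p - 2)) (2 * p 2) p :=
  sFun_grad p

lemma quint_grad (c5 c4 c3 c2 c1 c0 : ℝ) (p : E 3) :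
    HasGrad (quint c5 c4 c3 c2 c1 c0)
      (5 * c5 * p 0 ^ 4 + 4 * c4 * p 0 ^ 3 * p 1 + 3 * c3 * p 0 ^ 2 * p 1 ^ 2 +
        2 * c2 * p 0 * p 1 ^ 3 + c1 * p 1 ^ 4)
      (c4 * p 0 ^ 4 + 2 * c3 * p 0 ^ 3 * p 1 + 3 * c2 * p 0 ^ 2 * p 1 ^ 2 +
        4 * c1 * p 0 * p 1 ^ 3 + 5 * c0 * p 1 ^ 4) 0 p := by
  have X := HasGrad.x0 (p := p)
  have Y := HasGrad.x1 (p := p)
  have C := fun k : ℝ => HasGrad.const (p := p) k
  have h := ((((((C c5).mul (X.pow 5)).add (((C c4).mul (X.pow 4)).mul Y)).add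
    (((C c3).mul (X.pow 3)).mul (Y.pow 2))).add (((C c2).mul (X.pow 2)).mul (Y.pow 3))).add
    (((C c1).mul X).mul (Y.pow 4))).add ((C c0).mul (Y.pow 5))
  exact h.congr' (by norm_num; ring) (by norm_num; ring) (by norm_num)

/-- `g_σ`. -/
noncomputable def gσ (p : E 3) : ℝ := 4 * (sFun p - 2) * (sg p - 2)

lemma g_grad (p : E 3) : HasGrad (fun q => (1 - sFun q) * (3 - sFun q))
    (2 * p 0 * gσ p) (2 * p 1 * gσ p) (4 * (sFun p - 2) * p 2) p := by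
  have h := ((HasGrad.const (p := p) 1).sub (s_grad p)).mul
    ((HasGrad.const (p := p) 3).sub (s_grad p))
  exact h.congr' (by unfold gσ; ring) (by unfold gσ; ring) (by ring)

lemma gσ_grad (p : E 3) : HasGrad gσ
    (2 * p 0 * (4 * (sFun p - 2) + 8 * (sg p - 2) ^ 2))
    (2 * p 1 * (4 * (sFun p - 2) + 8 * (sg p - 2) ^ 2)) (8 * p 2 * (sg p - 2)) p := by
  have h := ((HasGrad.const (p := p) 4).mul ((s_grad p).sub (HasGrad.const (p := p) 2))).mul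
    ((sg_grad p).sub (HasGrad.const (p := p) 2))
  exact h.congr' (by ring) (by ring) (by ring)

lemma sgi_grad {p : E 3} (hp : sg p ≠ 0) (k : ℕ) : HasGrad (fun q => (sg q)⁻¹ ^ k)
    (-(2 * k * p 0) * (sg p)⁻¹ ^ (k + 1)) (-(2 * k * p 1) * (sg p)⁻¹ ^ (k + 1)) 0 p := by
  have h := ((sg_grad p).inv hp).pow k
  rcases k with _ | k
  · exact h.congr' (by norm_num) (by norm_num) (by norm_num)
  · refine h.congr' ?_ ?_ ?_
    · simp only [Nat.add_sub_cancel, div_eq_mul_inv, ← inv_pow]; push_cast; ring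
    · simp only [Nat.add_sub_cancel, div_eq_mul_inv, ← inv_pow]; push_cast; ring
    · simp

lemma prof_grad {p : E 3} (hp : sg p ≠ 0) : HasGrad prof
    (2 * p 0 * (gσ p * (sg p)⁻¹ ^ 3 - 3 * ((1 - sFun p) * (3 - sFun p)) * (sg p)⁻¹ ^ 4))
    (2 * p 1 * (gσ p * (sg p)⁻¹ ^ 3 - 3 * ((1 - sFun p) * (3 - sFun p)) * (sg p)⁻¹ ^ 4))
    (4 * (sFun p - 2) * p 2 * (sg p)⁻¹ ^ 3) p := by
  have h := (g_grad p).mul (sgi_grad hp 3)
  exact h.congr' (by push_cast; ring) (by push_cast; ring) (by ring)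

/-- The radial flux density `H = σ⁻⁴ (2 σ g_σ - g)`. -/
noncomputable def radH (p : E 3) : ℝ :=
  (2 * sg p * gσ p - (1 - sFun p) * (3 - sFun p)) * (sg p)⁻¹ ^ 4

lemma radH_grad {p : E 3} (hp : sg p ≠ 0) :
    ∃ hz : ℝ, HasGrad radH
    (2 * p 0 * ((gσ p + 2 * sg p * (4 * (sFun p - 2) + 8 * (sg p - 2) ^ 2)) * (sg p)⁻¹ ^ 4
      - 4 * (2 * sg p * gσ p - (1 - sFun p) * (3 - sFun p)) * (sg p)⁻¹ ^ 5))
    (2 * p 1 * ((gσ p + 2 * sg p * (4 * (sFun p - 2) + 8 * (sg p - 2) ^ 2)) * (sg p)⁻¹ ^ 4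
      - 4 * (2 * sg p * gσ p - (1 - sFun p) * (3 - sFun p)) * (sg p)⁻¹ ^ 5)) hz p := by
  have h := ((((HasGrad.const (p := p) 2).mul (sg_grad p)).mul (gσ_grad p)).sub (g_grad p)).mul
    (sgi_grad hp 4)
  exact ⟨_, h.congr' (by push_cast; ring) (by push_cast; ring) rfl⟩

/-- The vertical flux density `W = 4 σ ∂_z F`. -/
noncomputable def verW (p : E 3) : ℝ := 16 * ((sFun p - 2) * p 2) * (sg p)⁻¹ ^ 2

lemma verW_grad {p : E 3} (hp : sg p ≠ 0) :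
    ∃ wx wy : ℝ, HasGrad verW wx wy (16 * (2 * p 2 ^ 2 + (sFun p - 2)) * (sg p)⁻¹ ^ 2) p := by
  have h := ((HasGrad.const (p := p) 16).mul
    (((s_grad p).sub (HasGrad.const (p := p) 2)).mul (HasGrad.x2 (p := p)))).mul (sgi_grad hp 2)
  exact ⟨_, _, h.congr' rfl rfl (by ring)⟩

lemma pd_congr {n : ℕ} (i : Fin n) {f g : E n → ℝ} {p : E n} (h : ∀ᶠ q in 𝓝 p, f q = g q) :
    pd i f p = pd i g p := by
  unfold pd
  rw [Filter.EventuallyEq.fderiv_eq h]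

/-- Evaluation of the operator on `F P` for functions `P`, `K` of `x, y` with
`x P_x + y P_y = 5 P` and `m (x P_y - y P_x) = K`. -/
theorem ellOp_eval {m Pf Kf Px Py Kx Ky : E 3 → ℝ} {U : Set (E 3)} (hU : IsOpen U)
    (hsg : ∀ p ∈ U, sg p ≠ 0) (hs3 : ∀ p ∈ U, 3 - sFun p ≠ 0)
    (hP : ∀ p ∈ U, HasGrad Pf (Px p) (Py p) 0 p) (hK : ∀ p ∈ U, HasGrad Kf (Kx p) (Ky p) 0 p)
    (hE : ∀ p ∈ U, p 0 * Px p + p 1 * Py p = 5 * Pf p)
    (hm : ∀ p ∈ U, m p * (p 0 * Py p - p 1 * Px p) = Kf p) {p : E 3} (hp : p ∈ U) :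
    ellOp (mat m) zer (fun q => prof q * Pf q) p =
      prof p * (192 * Pf p - (p 0 * Ky p - p 1 * Kx p)) := by
  have hu : ∀ q ∈ U, HasGrad (fun q => prof q * Pf q) _ _ _ q := fun q hq =>
    (prof_grad (hsg q hq)).mul (hP q hq)
  have J0 : ∀ q ∈ U, ∑ j, mat m 0 j q * pd j (fun q => prof q * Pf q) q =
      q 0 * (radH q * Pf q) - q 1 * (prof q * Kf q) := by
    intro q hq
    rw [Fin.sum_univ_three, (hu q hq).pd0, (hu q hq).pd1, (hu q hq).pd2]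
    have hi : (q 0 ^ 2 + q 1 ^ 2) * (sg q)⁻¹ = 1 := mul_inv_cancel₀ (hsg q hq)
    have h1 := hE q hq
    have h2 := hm q hq
    have e : sg q = q 0 ^ 2 + q 1 ^ 2 := rfl
    simp only [mat00, mat01, mat02, mat10, mat11, mat12, div_eq_mul_inv, one_mul, radH, prof]
    rw [← h2]
    generalize (sg q)⁻¹ = i at hi ⊢
    rw [e]
    generalize gσ q = gs
    linear_combination (q 0 * i * ((1 - sFun q) * (3 - sFun q) * i ^ 3)) * h1 +
      (-6 * q 0 * Pf q * ((1 - sFun q) * (3 - sFun q)) * i ^ 4) * hi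
  have J1 : ∀ q ∈ U, ∑ j, mat m 1 j q * pd j (fun q => prof q * Pf q) q =
      q 1 * (radH q * Pf q) + q 0 * (prof q * Kf q) := by
    intro q hq
    rw [Fin.sum_univ_three, (hu q hq).pd0, (hu q hq).pd1, (hu q hq).pd2]
    have hi : (q 0 ^ 2 + q 1 ^ 2) * (sg q)⁻¹ = 1 := mul_inv_cancel₀ (hsg q hq)
    have h1 := hE q hq
    have h2 := hm q hq
    have e : sg q = q 0 ^ 2 + q 1 ^ 2 := rfl
    simp only [mat00, mat01, mat02, mat10, mat11, mat12, div_eq_mul_inv, one_mul, radH, prof]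
    rw [← h2]
    generalize (sg q)⁻¹ = i at hi ⊢
    rw [e]
    generalize gσ q = gs
    linear_combination (q 1 * i * ((1 - sFun q) * (3 - sFun q) * i ^ 3)) * h1 +
      (-6 * q 1 * Pf q * ((1 - sFun q) * (3 - sFun q)) * i ^ 4) * hi
  have J2 : ∀ q ∈ U, ∑ j, mat m 2 j q * pd j (fun q => prof q * Pf q) q = verW q * Pf q := by
    intro q hq
    rw [Fin.sum_univ_three, (hu q hq).pd0, (hu q hq).pd1, (hu q hq).pd2]
    have hi : (q 0 ^ 2 + q 1 ^ 2) * (sg q)⁻¹ = 1 := mul_inv_cancel₀ (hsg q hq)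
    have e : sg q = q 0 ^ 2 + q 1 ^ 2 := rfl
    simp only [mat20, mat21, mat22, verW, prof]
    generalize (sg q)⁻¹ = i at hi ⊢
    rw [e]
    linear_combination (16 * (sFun q - 2) * q 2 * Pf q * i ^ 2) * hi
  have hs := hsg p hp
  obtain ⟨hz, hH⟩ := radH_grad hs
  obtain ⟨wx, wy, hW⟩ := verW_grad hs
  have X := HasGrad.x0 (p := p)
  have Y := HasGrad.x1 (p := p)
  have G0 : HasGrad (fun q => q 0 * (radH q * Pf q) - q 1 * (prof q * Kf q)) _ _ _ p :=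
    (X.mul (hH.mul (hP p hp))).sub (Y.mul ((prof_grad hs).mul (hK p hp)))
  have G1 : HasGrad (fun q => q 1 * (radH q * Pf q) + q 0 * (prof q * Kf q)) _ _ _ p :=
    (Y.mul (hH.mul (hP p hp))).add (X.mul ((prof_grad hs).mul (hK p hp)))
  have G2 : HasGrad (fun q => verW q * Pf q) _ _ _ p := hW.mul (hP p hp)
  have D0 := (pd_congr 0 (Filter.eventually_of_mem (hU.mem_nhds hp) J0)).trans G0.pd0
  have D1 := (pd_congr 1 (Filter.eventually_of_mem (hU.mem_nhds hp) J1)).trans G1.pd1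
  have D2 := (pd_congr 2 (Filter.eventually_of_mem (hU.mem_nhds hp) J2)).trans G2.pd2
  unfold ellOp
  rw [Fin.sum_univ_three, D0, D1, D2]
  have hi : (p 0 ^ 2 + p 1 ^ 2) * (sg p)⁻¹ = 1 := mul_inv_cancel₀ hs
  have hj : (3 - sFun p) * (3 - sFun p)⁻¹ = 1 := mul_inv_cancel₀ (hs3 p hp)
  have h1 := hE p hp
  have e : sg p = p 0 ^ 2 + p 1 ^ 2 := rfl
  have es : sFun p = (p 0 ^ 2 + p 1 ^ 2 - 2) ^ 2 + p 2 ^ 2 := rfl
  simp only [zer, div_eq_mul_inv, one_mul, radH, prof, verW]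
  generalize (sg p)⁻¹ = i at hi ⊢
  generalize (3 - sFun p)⁻¹ = j at hj ⊢
  simp only [gσ]
  rw [e]
  linear_combination (Pf p * (-64 * (p 0 ^ 2 + p 1 ^ 2) * (sFun p - 1) * i ^ 3 +
    8 * (2 * (p 0 ^ 2 + p 1 ^ 2) * (4 * (sFun p - 2) * (p 0 ^ 2 + p 1 ^ 2 - 2)) -
      (1 - sFun p) * (3 - sFun p)) * i ^ 4 +
    16 * (2 * p 2 ^ 2 + (sFun p - 2)) * i ^ 2 * (1 + (p 0 ^ 2 + p 1 ^ 2) * i))) * hi +
    (-((2 * (p 0 ^ 2 + p 1 ^ 2) * (4 * (sFun p - 2) * (p 0 ^ 2 + p 1 ^ 2 - 2)) -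
      (1 - sFun p) * (3 - sFun p)) * i ^ 4)) * h1 +
    (-64 * (p 0 ^ 2 + p 1 ^ 2) * (1 - sFun p) * i ^ 3 * Pf p) * hj +
    (32 * Pf p * (p 0 ^ 2 + p 1 ^ 2) ^ 2 * i ^ 4) * es

end Pool.Agent.H403R2.CES
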