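import Pool.Agent.H403R2.CES.Defs

/-!
Strict positivity of Dirichlet operators with positive zeroth order coefficient.
-/

namespace Pool.Agent.H403R2.CES

open Set Topology MeasureTheory Filter

open scoped ContDiff

lemma isCompact_closure_of_bdd {n : ℕ} {D : Set (E n)} (hb : Bornology.IsBounded D) :
    IsCompact (closure D) := hb.isCompact_closure

lemma intOn {n : ℕ} {D U : Set (E n)} (hb : Bornology.IsBounded D) (hDU : closure D ⊆ U)
    {f : E n → ℝ} (hf : ContinuousOn f U) : IntegrableOn f D :=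
  ((hf.mono hDU).integrableOn_compact (isCompact_closure_of_bdd hb)).mono_set subset_closure

/-- Divergence theorem for a field vanishing to second order on the boundary. -/
lemma integral_fderiv_zero {n : ℕ} {D U : Set (E n)} (hDo : IsOpen D)
    (hb : Bornology.IsBounded D) (hU : IsOpen U) (hDU : closure D ⊆ U) {V : E n → ℝ}
    (hV : ContDiffOn ℝ 1 V U) (h0 : ∀ p ∈ frontier D, V p = 0)
    (h1 : ∀ p ∈ frontier D, fderiv ℝ V p = 0) (v : E n) :
    ∫ p in D, fderiv ℝ V p v = 0 := by
  have hdiff : ∀ p ∈ U, DifferentiableAt ℝ V p := fun p hp =>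
    (hV.differentiableOn (by norm_num)).differentiableAt (hU.mem_nhds hp)
  have key : ∀ p, HasFDerivAt (D.indicator V) (D.indicator (fun p => fderiv ℝ V p) p) p := by
    intro p
    by_cases hp : p ∈ D
    · rw [indicator_of_mem hp]
      refine (hdiff p (hDU (subset_closure hp))).hasFDerivAt.congr_of_eventuallyEq ?_
      filter_upwards [hDo.mem_nhds hp] with x hx
      rw [indicator_of_mem hx]
    · rw [indicator_of_notMem hp]
      by_cases hp' : p ∈ closure D
      · have hfr : p ∈ frontier D := by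
          rw [hDo.frontier_eq]; exact ⟨hp', hp⟩
        have h2 : HasFDerivAt V (0 : E n →L[ℝ] ℝ) p := by
          rw [← h1 p hfr]; exact (hdiff p (hDU hp')).hasFDerivAt
        rw [hasFDerivAt_iff_isLittleO_nhds_zero] at h2 ⊢
        refine Asymptotics.IsBigO.trans_isLittleO ?_ h2
        refine Asymptotics.IsBigO.of_bound 1 (Eventually.of_forall fun x => ?_)
        rw [one_mul, indicator_of_notMem hp, h0 p hfr]
        by_cases hx : p + x ∈ D
        · rw [indicator_of_mem hx]
        · rw [indicator_of_notMem hx]; simp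
      · refine (hasFDerivAt_const (0 : ℝ) p).congr_of_eventuallyEq ?_
        filter_upwards [isClosed_closure.isOpen_compl.mem_nhds hp'] with x hx
        rw [indicator_of_notMem (fun h => hx (subset_closure h))]
  have hc' : ContinuousOn (fun p => fderiv ℝ V p v) U :=
    ((hV.continuousOn_fderiv_of_isOpen hU le_rfl).clm_apply continuousOn_const)
  have hi1 : Integrable (fun x => D.indicator V x) :=
    (integrable_indicator_iff hDo.measurableSet).2 (intOn hb hDU hV.continuousOn)
  have hi2 : Integrable (fun x => D.indicator (fun p => fderiv ℝ V p v) x) :=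
    (integrable_indicator_iff hDo.measurableSet).2 (intOn hb hDU hc')
  have e1 : ∀ x, (D.indicator (fun p => fderiv ℝ V p) x) v =
      D.indicator (fun p => fderiv ℝ V p v) x := by
    intro x
    by_cases hx : x ∈ D
    · rw [indicator_of_mem hx, indicator_of_mem hx]
    · rw [indicator_of_notMem hx, indicator_of_notMem hx]; simp
  have := integral_bilinear_hasFDerivAt_right_eq_neg_left_of_integrable (μ := volume)
    (f := D.indicator V) (f' := fun x => D.indicator (fun p => fderiv ℝ V p) x)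
    (g := fun _ => (1 : ℝ)) (g' := fun _ => 0) (v := v) (B := ContinuousLinearMap.mul ℝ ℝ)
    (by simpa [e1] using hi2) (by simp) (by simpa using hi1) (fun x _ => key x)
    (fun x _ => hasFDerivAt_const _ _)
  simp only [ContinuousLinearMap.mul_apply', mul_one, ContinuousLinearMap.zero_apply, mul_zero,
    integral_zero, e1] at this
  rw [integral_indicator hDo.measurableSet] at this
  linarith

/-- The truncation `t ↦ t³ / (t² + ε)`. -/
noncomputable def tr (ε t : ℝ) : ℝ := t ^ 3 / (t ^ 2 + ε)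

/-- Its derivative. -/
noncomputable def tr' (ε t : ℝ) : ℝ := (t ^ 4 + 3 * ε * t ^ 2) / (t ^ 2 + ε) ^ 2

lemma tr_hasDerivAt {ε : ℝ} (hε : 0 < ε) (t : ℝ) : HasDerivAt (tr ε) (tr' ε t) t := by
  have h : t ^ 2 + ε ≠ 0 := by positivity
  have h1 : HasDerivAt (fun t : ℝ => t ^ 3) (3 * t ^ 2) t := by simpa using hasDerivAt_pow 3 t
  have h2 : HasDerivAt (fun t : ℝ => t ^ 2 + ε) (2 * t) t := by
    simpa using (hasDerivAt_pow 2 t).add_const ε
  have := h1.div h2 h
  convert! this using 1
  unfold tr'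
  congr 1
  ring

lemma tr_contDiff {ε : ℝ} (hε : 0 < ε) : ContDiff ℝ ∞ (tr ε) := by
  unfold tr
  exact (contDiff_id.pow 3).div ((contDiff_id.pow 2).add contDiff_const)
    (fun t => by positivity)

lemma tr'_nonneg {ε : ℝ} (hε : 0 < ε) (t : ℝ) : 0 ≤ tr' ε t := by unfold tr'; positivity

lemma tr_zero (ε : ℝ) : tr ε 0 = 0 := by simp [tr]

lemma tr'_zero (ε : ℝ) : tr' ε 0 = 0 := by simp [tr']

lemma mul_tr_nonneg {ε : ℝ} (hε : 0 < ε) (t : ℝ) : 0 ≤ t * tr ε t := by
  unfold tr
  have : t * (t ^ 3 / (t ^ 2 + ε)) = t ^ 4 / (t ^ 2 + ε) := by ring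
  rw [this]; positivity

lemma abs_tr_le {ε : ℝ} (hε : 0 < ε) (t : ℝ) : |tr ε t| ≤ |t| := by
  unfold tr
  rw [abs_div, abs_of_pos (by positivity : 0 < t ^ 2 + ε), div_le_iff₀ (by positivity), abs_pow]
  have : |t| ^ 3 = |t| * t ^ 2 := by rw [← sq_abs]; ring
  rw [this]
  have := abs_nonneg t
  nlinarith [mul_nonneg this hε.le]

lemma tr_tendsto (t : ℝ) :
    Tendsto (fun n : ℕ => tr (1 / ((n : ℝ) + 1)) t) atTop (𝓝 t) := by
  have h1 : Tendsto (fun n : ℕ => 1 / ((n : ℝ) + 1)) atTop (𝓝 0) :=
    tendsto_one_div_add_atTop_nhds_zero_nat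
  by_cases ht : t = 0
  · subst ht; simp [tr_zero]
  · unfold tr
    have h2 : Tendsto (fun n : ℕ => t ^ 3 / (t ^ 2 + 1 / ((n : ℝ) + 1))) atTop
        (𝓝 (t ^ 3 / (t ^ 2 + 0))) :=
      tendsto_const_nhds.div (tendsto_const_nhds.add h1) (by positivity)
    convert! h2 using 2
    field_simp
    ring

/-- An operator `L w = -∑ ∂_i (a_ij ∂_j w) + c w` with `a ≥ 0` and `c ≥ γ` satisfies
`(L w, w) ≥ γ ‖w‖²` for all `w ∈ C²(closure D)` vanishing on the boundary. -/
theorem positive_of_le {n : ℕ} {D : Set (E n)} (hDo : IsOpen D) (hb : Bornology.IsBounded D)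
    {a : Fin n → Fin n → E n → ℝ} {c : E n → ℝ} (ha : ∀ i j, SmoothOnClosure 1 D (a i j))
    (hc : SmoothOnClosure 1 D c)
    (hpsd : ∀ p ∈ D, ∀ ξ : Fin n → ℝ, 0 ≤ ∑ i, ∑ j, a i j p * ξ i * ξ j) {γ : ℝ}
    (hγ : ∀ p ∈ D, γ ≤ c p) {w : E n → ℝ} (hw : SmoothOnClosure 2 D w)
    (hw0 : ∀ p ∈ frontier D, w p = 0) :
    γ * ∫ p in D, w p ^ 2 ≤ ∫ p in D, ellOp a c w p * w p := by
  obtain ⟨Uw, hUwo, hUw, hwU⟩ := hw
  obtain ⟨Uc, hUco, hUc, hcU⟩ := hc
  choose Ua hUao hUa haU using ha
  set U : Set (E n) := Uw ∩ Uc ∩ ⋂ i, ⋂ j, Ua i j with hUdef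
  have hUo : IsOpen U := (hUwo.inter hUco).inter
    (isOpen_iInter_of_finite fun i => isOpen_iInter_of_finite fun j => hUao i j)
  have hDU : closure D ⊆ U := fun p hp =>
    ⟨⟨hUw hp, hUc hp⟩, mem_iInter.2 fun i => mem_iInter.2 fun j => hUa i j hp⟩
  have hwU : ContDiffOn ℝ 2 w U := hwU.mono fun p hp => hp.1.1
  have hcU : ContDiffOn ℝ 1 c U := hcU.mono fun p hp => hp.1.2
  have haU : ∀ i j, ContDiffOn ℝ 1 (a i j) U := fun i j => (haU i j).mono fun p hp =>
    mem_iInter.1 (mem_iInter.1 hp.2 i) j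
  have hpd : ∀ j, ContDiffOn ℝ 1 (pd j w) U := fun j =>
    (hwU.fderiv_of_isOpen hUo (by norm_num)).clm_apply contDiffOn_const
  -- the flux
  set F : Fin n → E n → ℝ := fun i q => ∑ j, a i j q * pd j w q with hF
  have hFU : ∀ i, ContDiffOn ℝ 1 (F i) U := fun i =>
    ContDiffOn.sum fun j _ => (haU i j).mul (hpd j)
  have hFdiff : ∀ i, ∀ p ∈ U, DifferentiableAt ℝ (F i) p := fun i p hp =>
    ((hFU i).differentiableOn (by norm_num)).differentiableAt (hUo.mem_nhds hp)
  have hwdiff : ∀ p ∈ U, DifferentiableAt ℝ w p := fun p hp =>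
    (hwU.differentiableOn (by norm_num)).differentiableAt (hUo.mem_nhds hp)
  have hw1 : ContDiffOn ℝ 1 w U := hwU.of_le (by norm_num)
  have hpdF : ∀ i, ContinuousOn (pd i (F i)) U := fun i =>
    ((hFU i).continuousOn_fderiv_of_isOpen hUo le_rfl).clm_apply continuousOn_const
  have hell : ContinuousOn (ellOp a c w) U := by
    have : ellOp a c w = fun p => -(∑ i, pd i (F i) p) + c p * w p := rfl
    rw [this]
    exact ((continuousOn_finsetSum _ fun i _ => hpdF i).neg).add
      (hcU.continuousOn.mul hw1.continuousOn)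
  -- the inequality for truncated test functions
  have main : ∀ ε : ℝ, 0 < ε →
      ∫ p in D, γ * (w p * tr ε (w p)) ≤ ∫ p in D, ellOp a c w p * tr ε (w p) := by
    intro ε hε
    set V : Fin n → E n → ℝ := fun i p => tr ε (w p) * F i p with hV
    have htrw : ContDiffOn ℝ 1 (fun p => tr ε (w p)) U :=
      ((tr_contDiff hε).of_le (by exact_mod_cast le_top)).comp_contDiffOn hw1
    have hVU : ∀ i, ContDiffOn ℝ 1 (V i) U := fun i => htrw.mul (hFU i)
    have hVd : ∀ i, ∀ p ∈ U, HasFDerivAt (V i)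
        (tr ε (w p) • fderiv ℝ (F i) p + F i p • (tr' ε (w p) • fderiv ℝ w p)) p := by
      intro i p hp
      have h1 : HasFDerivAt (fun p => tr ε (w p)) (tr' ε (w p) • fderiv ℝ w p) p :=
        (tr_hasDerivAt hε (w p)).comp_hasFDerivAt p (hwdiff p hp).hasFDerivAt
      exact h1.mul (hFdiff i p hp).hasFDerivAt
    have hint : ∀ i, ∫ p in D, fderiv ℝ (V i) p (EuclideanSpace.single i 1) = 0 := by
      intro i
      refine integral_fderiv_zero hDo hb hUo hDU (hVU i) (fun p hp => ?_) (fun p hp => ?_) _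
      · simp only [hV, hw0 p hp, tr_zero, zero_mul]
      · rw [(hVd i p (hDU (frontier_subset_closure hp))).fderiv, hw0 p hp, tr_zero, tr'_zero]
        simp
    have hVc : ∀ i, ContinuousOn (fun p => fderiv ℝ (V i) p (EuclideanSpace.single i 1)) U :=
      fun i => ((hVU i).continuousOn_fderiv_of_isOpen hUo le_rfl).clm_apply continuousOn_const
    have hI : ∫ p in D, ellOp a c w p * tr ε (w p) =
        ∫ p in D, (ellOp a c w p * tr ε (w p) +
          ∑ i, fderiv ℝ (V i) p (EuclideanSpace.single i 1)) := by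
      have i1 : IntegrableOn (fun p => ellOp a c w p * tr ε (w p)) D :=
        intOn hb hDU (hell.mul htrw.continuousOn)
      have i2 : IntegrableOn (fun p => ∑ i, fderiv ℝ (V i) p (EuclideanSpace.single i 1)) D :=
        intOn hb hDU (continuousOn_finsetSum _ fun i _ => hVc i)
      have h3 : ∫ p in D, ∑ i, fderiv ℝ (V i) p (EuclideanSpace.single i 1) = 0 := by
        rw [integral_finset_sum _ (fun i _ => intOn hb hDU (hVc i))]
        simp [hint]
      rw [integral_add i1 i2, h3, add_zero]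
    rw [hI]
    refine setIntegral_mono_on (intOn hb hDU (continuousOn_const.mul
      (hw1.continuousOn.mul htrw.continuousOn))) (intOn hb hDU
      ((hell.mul htrw.continuousOn).add (continuousOn_finsetSum _ fun i _ => hVc i)))
      hDo.measurableSet (fun p hp => ?_)
    have hpU : p ∈ U := hDU (subset_closure hp)
    have e1 : ∀ i, fderiv ℝ (V i) p (EuclideanSpace.single i 1) =
        tr ε (w p) * pd i (F i) p + tr' ε (w p) * (F i p * pd i w p) := by
      intro i
      rw [(hVd i p hpU).fderiv]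
      simp only [ContinuousLinearMap.add_apply, ContinuousLinearMap.smul_apply, smul_eq_mul, pd]
      ring
    have e2 : ∑ i, F i p * pd i w p = ∑ i, ∑ j, a i j p * pd i w p * pd j w p := by
      refine Finset.sum_congr rfl fun i _ => ?_
      rw [hF]
      simp only
      rw [Finset.sum_mul]
      exact Finset.sum_congr rfl fun j _ => by ring
    have e3 : ellOp a c w p = -(∑ i, pd i (F i) p) + c p * w p := rfl
    simp only [e1]
    rw [Finset.sum_add_distrib, ← Finset.mul_sum, ← Finset.mul_sum, e2, e3]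
    have h1 := hpsd p hp (fun i => pd i w p)
    have h2 := mul_nonneg (tr'_nonneg hε (w p)) h1
    have h3 := mul_le_mul_of_nonneg_right (hγ p hp) (mul_tr_nonneg hε (w p))
    nlinarith [h2, h3]
  -- the limit
  have hwc : ContinuousOn w U := hw1.continuousOn
  have htrc : ∀ ε : ℝ, 0 < ε → ContinuousOn (fun p => tr ε (w p)) U := fun ε hε =>
    (tr_contDiff hε).continuous.comp_continuousOn hwc
  have hpos : ∀ k : ℕ, 0 < 1 / ((k : ℝ) + 1) := fun k => by positivity
  have lim1 : Tendsto (fun k : ℕ => ∫ p in D, γ * (w p * tr (1 / ((k : ℝ) + 1)) (w p))) atTop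
      (𝓝 (∫ p in D, γ * (w p * w p))) := by
    refine tendsto_integral_of_dominated_convergence (fun p => |γ| * (|w p| * |w p|))
      (fun k => (intOn hb hDU (continuousOn_const.mul
        (hwc.mul (htrc _ (hpos k))))).aestronglyMeasurable)
      (intOn hb hDU (continuousOn_const.mul (hwc.abs.mul hwc.abs)))
      (fun k => Eventually.of_forall fun p => ?_) (Eventually.of_forall fun p => ?_)
    · rw [Real.norm_eq_abs, abs_mul, abs_mul]
      exact mul_le_mul_of_nonneg_left (mul_le_mul_of_nonneg_left (abs_tr_le (hpos k) _)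
        (abs_nonneg _)) (abs_nonneg _)
    · exact tendsto_const_nhds.mul (tendsto_const_nhds.mul (tr_tendsto (w p)))
  have lim2 : Tendsto (fun k : ℕ => ∫ p in D, ellOp a c w p * tr (1 / ((k : ℝ) + 1)) (w p)) atTop
      (𝓝 (∫ p in D, ellOp a c w p * w p)) := by
    refine tendsto_integral_of_dominated_convergence (fun p => |ellOp a c w p| * |w p|)
      (fun k => (intOn hb hDU (hell.mul (htrc _ (hpos k)))).aestronglyMeasurable)
      (intOn hb hDU (hell.abs.mul hwc.abs))
      (fun k => Eventually.of_forall fun p => ?_) (Eventually.of_forall fun p => ?_)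
    · rw [Real.norm_eq_abs, abs_mul]
      exact mul_le_mul_of_nonneg_left (abs_tr_le (hpos k) _) (abs_nonneg _)
    · exact tendsto_const_nhds.mul (tr_tendsto (w p))
  have := le_of_tendsto_of_tendsto' lim1 lim2 (fun k => main _ (hpos k))
  rw [integral_const_mul] at this
  simpa [sq] using this

end Pool.Agent.H403R2.CES
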