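import Pool.Agent.H403R2.CES.Pos

/-!
The solid torus `{(x, y, z) : (x² + y² - 2)² + z² < 1}`, and gradient calculus in `ℝ³`.
-/

namespace Pool.Agent.H403R2.CES

open Set Topology MeasureTheory Filter

open scoped ContDiff

/-! ### Gradients -/

/-- The coordinate functionals. -/
noncomputable def dx (i : Fin 3) : E 3 →L[ℝ] ℝ := EuclideanSpace.proj i

lemma dx_apply (i : Fin 3) (v : E 3) : dx i v = v i := rfl

/-- `f` is differentiable at `p` with partial derivatives `a, b, c`. -/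
def HasGrad (f : E 3 → ℝ) (a b c : ℝ) (p : E 3) : Prop :=
  HasFDerivAt f (a • dx 0 + b • dx 1 + c • dx 2) p

namespace HasGrad

variable {f g : E 3 → ℝ} {a b c a' b' c' : ℝ} {p : E 3}

lemma pd0 (h : HasGrad f a b c p) : pd 0 f p = a := by
  unfold pd; rw [HasFDerivAt.fderiv h]; simp [dx_apply]

lemma pd1 (h : HasGrad f a b c p) : pd 1 f p = b := by
  unfold pd; rw [HasFDerivAt.fderiv h]; simp [dx_apply]

lemma pd2 (h : HasGrad f a b c p) : pd 2 f p = c := by
  unfold pd; rw [HasFDerivAt.fderiv h]; simp [dx_apply]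

lemma congr' (h : HasGrad f a b c p) (ha : a = a') (hb : b = b') (hc : c = c') :
    HasGrad f a' b' c' p := by subst ha hb hc; exact h

lemma x0 : HasGrad (fun q => q 0) 1 0 0 p := by
  unfold HasGrad
  convert! (dx 0).hasFDerivAt using 1
  module

lemma x1 : HasGrad (fun q => q 1) 0 1 0 p := by
  unfold HasGrad
  convert! (dx 1).hasFDerivAt using 1
  module

lemma x2 : HasGrad (fun q => q 2) 0 0 1 p := by
  unfold HasGrad
  convert! (dx 2).hasFDerivAt using 1
  module

lemma const (k : ℝ) : HasGrad (fun _ => k) 0 0 0 p := by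
  unfold HasGrad
  convert! hasFDerivAt_const (𝕜 := ℝ) k p using 1
  module

lemma add (h : HasGrad f a b c p) (h' : HasGrad g a' b' c' p) :
    HasGrad (fun q => f q + g q) (a + a') (b + b') (c + c') p := by
  unfold HasGrad at *
  convert! HasFDerivAt.add h h' using 1
  module

lemma mul (h : HasGrad f a b c p) (h' : HasGrad g a' b' c' p) :
    HasGrad (fun q => f q * g q) (f p * a' + g p * a) (f p * b' + g p * b)
      (f p * c' + g p * c) p := by
  unfold HasGrad at *
  convert! HasFDerivAt.mul h h' using 1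
  module

lemma neg (h : HasGrad f a b c p) : HasGrad (fun q => -f q) (-a) (-b) (-c) p := by
  unfold HasGrad at *
  convert! HasFDerivAt.neg h using 1
  module

lemma sub (h : HasGrad f a b c p) (h' : HasGrad g a' b' c' p) :
    HasGrad (fun q => f q - g q) (a - a') (b - b') (c - c') p := by
  unfold HasGrad at *
  convert! HasFDerivAt.sub h h' using 1
  module

lemma pow (h : HasGrad f a b c p) (n : ℕ) :
    HasGrad (fun q => f q ^ n) (n * f p ^ (n - 1) * a) (n * f p ^ (n - 1) * b)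
      (n * f p ^ (n - 1) * c) p := by
  unfold HasGrad at *
  have h1 : HasDerivAt (fun t : ℝ => t ^ n) (n * f p ^ (n - 1)) (f p) := hasDerivAt_pow n (f p)
  convert! h1.comp_hasFDerivAt p h using 1
  module

lemma inv (h : HasGrad f a b c p) (h0 : f p ≠ 0) :
    HasGrad (fun q => (f q)⁻¹) (-a / f p ^ 2) (-b / f p ^ 2) (-c / f p ^ 2) p := by
  unfold HasGrad at *
  have h1 : HasDerivAt (fun t : ℝ => t⁻¹) (-(f p ^ 2)⁻¹) (f p) := hasDerivAt_inv h0
  convert! h1.comp_hasFDerivAt p h using 1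
  simp only [div_eq_mul_inv]
  module

end HasGrad

/-! ### The solid torus -/

/-- The defining function `(x² + y² - 2)² + z²`. -/
noncomputable def sFun (p : E 3) : ℝ := (p 0 ^ 2 + p 1 ^ 2 - 2) ^ 2 + p 2 ^ 2

/-- The solid torus `{(x, y, z) : (x² + y² - 2)² + z² < 1}`. -/
def torus : Set (E 3) := {p | (p 0 ^ 2 + p 1 ^ 2 - 2) ^ 2 + p 2 ^ 2 < 1}

lemma sFun_continuous : Continuous sFun := by unfold sFun; fun_prop

lemma torus_eq : torus = {p | sFun p < 1} := rfl

lemma torus_open : IsOpen torus := isOpen_lt sFun_continuous continuous_const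

/-- The parametrisation. -/
noncomputable def par (t φ θ : ℝ) : E 3 :=
  !₂[Real.sqrt (2 + t * Real.cos φ) * Real.cos θ, Real.sqrt (2 + t * Real.cos φ) * Real.sin θ,
    t * Real.sin φ]

lemma par_continuous : Continuous (fun q : ℝ × ℝ × ℝ => par q.1 q.2.1 q.2.2) := by
  unfold par
  refine (PiLp.continuous_toLp 2 _).comp (continuous_pi fun i => ?_)
  fin_cases i <;> simp <;> fun_prop

lemma par_sFun {t φ θ : ℝ} (h0 : 0 ≤ t) (h1 : t ≤ 1) : sFun (par t φ θ) = t ^ 2 := by
  have hc : 0 ≤ 2 + t * Real.cos φ := by nlinarith [Real.neg_one_le_cos φ]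
  have h2 : (par t φ θ) 0 ^ 2 + (par t φ θ) 1 ^ 2 = 2 + t * Real.cos φ := by
    have : (par t φ θ) 0 ^ 2 + (par t φ θ) 1 ^ 2 =
      Real.sqrt (2 + t * Real.cos φ) ^ 2 * (Real.sin θ ^ 2 + Real.cos θ ^ 2) := by
      show (Real.sqrt (2 + t * Real.cos φ) * Real.cos θ) ^ 2 +
        (Real.sqrt (2 + t * Real.cos φ) * Real.sin θ) ^ 2 = _
      ring
    rw [this, Real.sin_sq_add_cos_sq, Real.sq_sqrt hc, mul_one]
  have h3 : (par t φ θ) 2 = t * Real.sin φ := by simp [par]
  rw [sFun, h2, h3]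
  have := Real.sin_sq_add_cos_sq φ
  linear_combination t ^ 2 * this

lemma exists_par (p : E 3) : ∃ φ θ, par (Real.sqrt (sFun p)) φ θ = p := by
  have hs0 : 0 ≤ sFun p := by unfold sFun; positivity
  set w : ℂ := ⟨p 0 ^ 2 + p 1 ^ 2 - 2, p 2⟩ with hw
  have hwn : ‖w‖ = Real.sqrt (sFun p) := by
    rw [Complex.norm_eq_sqrt_sq_add_sq]; rfl
  set v : ℂ := ⟨p 0, p 1⟩ with hv
  have hvn : ‖v‖ = Real.sqrt (p 0 ^ 2 + p 1 ^ 2) := by
    rw [Complex.norm_eq_sqrt_sq_add_sq]
  have e1 : Real.sqrt (sFun p) * Real.cos w.arg = p 0 ^ 2 + p 1 ^ 2 - 2 := by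
    rw [← hwn]; exact Complex.norm_mul_cos_arg w
  have e2 : Real.sqrt (sFun p) * Real.sin w.arg = p 2 := by
    rw [← hwn]; exact Complex.norm_mul_sin_arg w
  have e3 : Real.sqrt (p 0 ^ 2 + p 1 ^ 2) * Real.cos v.arg = p 0 := by
    rw [← hvn]; exact Complex.norm_mul_cos_arg v
  have e4 : Real.sqrt (p 0 ^ 2 + p 1 ^ 2) * Real.sin v.arg = p 1 := by
    rw [← hvn]; exact Complex.norm_mul_sin_arg v
  refine ⟨w.arg, v.arg, ?_⟩
  ext i
  fin_cases i
  · simp only [par, e1]
    simpa using e3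
  · simp only [par, e1]
    simpa using e4
  · simpa [par] using e2

lemma torus_image : torus = (fun q : ℝ × ℝ × ℝ => par q.1 q.2.1 q.2.2) ''
    (Ico (0 : ℝ) 1 ×ˢ (univ ×ˢ univ)) := by
  ext p
  constructor
  · intro hp
    have hp' : sFun p < 1 := hp
    obtain ⟨φ, θ, h⟩ := exists_par p
    refine ⟨(Real.sqrt (sFun p), φ, θ), ⟨⟨Real.sqrt_nonneg _, ?_⟩, trivial, trivial⟩, h⟩
    rw [Real.sqrt_lt' one_pos]; simpa using hp'
  · rintro ⟨⟨t, φ, θ⟩, ⟨⟨h0, h1⟩, -⟩, rfl⟩
    show sFun _ < 1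
    rw [par_sFun h0 h1.le]
    have h0 : 0 ≤ t := h0
    have h1 : t < 1 := h1
    nlinarith

lemma level_image : {p | sFun p = 1} = (fun q : ℝ × ℝ × ℝ => par q.1 q.2.1 q.2.2) ''
    ({1} ×ˢ (univ ×ˢ univ)) := by
  ext p
  constructor
  · intro hp
    have hp' : sFun p = 1 := hp
    obtain ⟨φ, θ, h⟩ := exists_par p
    rw [hp', Real.sqrt_one] at h
    exact ⟨(1, φ, θ), ⟨rfl, trivial, trivial⟩, h⟩
  · rintro ⟨⟨t, φ, θ⟩, ⟨h0, -⟩, rfl⟩
    have h0 : t = 1 := h0
    subst h0
    show sFun _ = 1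
    rw [par_sFun zero_le_one le_rfl]; norm_num

lemma torus_connected : IsConnected torus := by
  rw [torus_image]
  refine IsConnected.image ?_ _ par_continuous.continuousOn
  exact (isConnected_Ico (by norm_num)).prod (isConnected_univ.prod isConnected_univ)

lemma par_mem_torus {t φ θ : ℝ} (h0 : 0 ≤ t) (h1 : t < 1) : par t φ θ ∈ torus := by
  show sFun (par t φ θ) < 1
  rw [par_sFun h0 h1.le]
  nlinarith

lemma par_tendsto (φ θ : ℝ) : Tendsto (fun t : ℝ => par t φ θ) (𝓝[<] 1) (𝓝 (par 1 φ θ)) := by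
  have h1 : Continuous (fun t : ℝ => ((t, φ, θ) : ℝ × ℝ × ℝ)) := by fun_prop
  have hc : Continuous (fun t : ℝ => par t φ θ) := par_continuous.comp h1
  exact (hc.tendsto 1).mono_left nhdsWithin_le_nhds

lemma level_subset_closure {p : E 3} (hp : sFun p = 1) : p ∈ closure torus := by
  obtain ⟨φ, θ, hpar⟩ := exists_par p
  rw [hp, Real.sqrt_one] at hpar
  rw [← hpar]
  refine mem_closure_of_tendsto (par_tendsto φ θ) ?_
  have h : Ioo (0 : ℝ) 1 ∈ 𝓝[<] (1 : ℝ) := Ioo_mem_nhdsLT (by norm_num)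
  filter_upwards [h] with s hs
  exact par_mem_torus hs.1.le hs.2

lemma torus_frontier : frontier torus = {p | sFun p = 1} := by
  refine Subset.antisymm (frontier_lt_subset_eq sFun_continuous continuous_const) ?_
  intro p hp
  have hp1 : sFun p = 1 := hp
  rw [torus_open.frontier_eq]
  refine ⟨level_subset_closure hp1, fun h => ?_⟩
  have h' : sFun p < 1 := h
  linarith

lemma torus_frontier_connected : IsConnected (frontier torus) := by
  rw [torus_frontier, level_image]
  refine IsConnected.image ?_ _ par_continuous.continuousOn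
  exact isConnected_singleton.prod (isConnected_univ.prod isConnected_univ)

lemma torus_closure {p : E 3} (hp : p ∈ closure torus) : sFun p ≤ 1 :=
  closure_lt_subset_le sFun_continuous continuous_const hp

lemma sigma_bounds {p : E 3} (hp : sFun p ≤ 1) :
    1 ≤ p 0 ^ 2 + p 1 ^ 2 ∧ p 0 ^ 2 + p 1 ^ 2 ≤ 3 := by
  unfold sFun at hp
  constructor <;> nlinarith [sq_nonneg (p 2)]

lemma torus_bounded : Bornology.IsBounded torus := by
  refine (Metric.isBounded_ball (x := (0 : E 3)) (r := 3)).subset fun p hp => ?_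
  have hp' : sFun p < 1 := hp
  have h1 := sigma_bounds hp'.le
  have h2 : p 2 ^ 2 ≤ 1 := by unfold sFun at hp'; nlinarith [sq_nonneg (p 0 ^ 2 + p 1 ^ 2 - 2)]
  rw [mem_ball_zero_iff, EuclideanSpace.norm_eq, Real.sqrt_lt' (by norm_num), Fin.sum_univ_three]
  simp only [Real.norm_eq_abs, sq_abs]
  linarith [h1.2]

lemma sFun_grad (p : E 3) : HasGrad sFun (4 * p 0 * (p 0 ^ 2 + p 1 ^ 2 - 2))
    (4 * p 1 * (p 0 ^ 2 + p 1 ^ 2 - 2)) (2 * p 2) p := by
  have h := (((HasGrad.x0 (p := p)).pow 2).add ((HasGrad.x1 (p := p)).pow 2)).sub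
    (HasGrad.const (p := p) 2)
  exact ((h.pow 2).add ((HasGrad.x2 (p := p)).pow 2)).congr' (by norm_num; ring)
    (by norm_num; ring) (by norm_num)

lemma sFun_contDiff : ContDiff ℝ ∞ sFun := by
  unfold sFun
  fun_prop

theorem torus_domain : IsSmoothBoundedDomain torus where
  isOpen := torus_open
  isConnected := torus_connected
  isBounded := torus_bounded
  frontier_connected := torus_frontier_connected
  frontier_smooth := by
    intro p hp
    rw [torus_frontier] at hp
    have hp1 : sFun p = 1 := hp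
    refine ⟨univ, isOpen_univ, mem_univ p, fun q => sFun q - 1,
      (sFun_contDiff.sub contDiff_const).contDiffOn, fun h0 => ?_, fun q _ => ?_⟩
    · have hg : HasGrad (fun q => sFun q - 1) _ _ _ p := (sFun_grad p).sub (HasGrad.const 1)
      have e0 := hg.pd0
      have e1 := hg.pd1
      have e2 := hg.pd2
      unfold pd at e0 e1 e2
      rw [h0] at e0 e1 e2
      simp only [zero_apply] at e0 e1 e2
      have hz : p 2 = 0 := by linarith
      have hs := hp1
      have hb := sigma_bounds hp1.le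
      unfold sFun at hs
      rw [hz] at hs
      have h3 : (p 0 ^ 2 + p 1 ^ 2) * (p 0 ^ 2 + p 1 ^ 2 - 2) = 0 := by
        linear_combination (-(p 0) / 4) * e0 + (-(p 1) / 4) * e1
      rcases mul_eq_zero.1 h3 with h | h
      · linarith [hb.1]
      · rw [h] at hs; norm_num at hs
    · show sFun q < 1 ↔ _
      constructor <;> intro h <;> linarith

end Pool.Agent.H403R2.CES
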